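import Pool.Agent.H55.Suit2

namespace Pool.Agent.Results.MP_41e59e_gt.NoSuitable

/-- `S` is a suitable set for the (additively written) topological group `G`. -/
def Suitable {G : Type} [AddGroup G] [TopologicalSpace G] (S : Set G) : Prop :=
  IsDiscrete S ∧ IsClosed (insert (0 : G) S) ∧ Dense (AddSubgroup.closure S : Set G)

theorem result : ∃ (G : Type) (_ : AddCommGroup G) (_ : TopologicalSpace G),
    IsTopologicalAddGroup G ∧ T35Space G ∧ TotallyDisconnectedSpace G ∧
    (∃ _ : LinearOrder G, OrderTopology G) ∧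
    ¬ TopologicalSpace.SeparableSpace G ∧ ¬ IsGδ ({0} : Set G) ∧
    ∀ S : Set G, ¬ Suitable S := by
  obtain ⟨W, _, _, _, h1, h3, -⟩ := Pool.Agent.H55.Suit.exists_W
  have := Pool.Agent.H55.Suit.orderTop h1
  have := Pool.Agent.H55.Suit.totSep h1
  exact ⟨Pool.Agent.H55.Suit.G W, inferInstance, inferInstance, inferInstance, inferInstance,
    inferInstance, ⟨inferInstance, inferInstance⟩, Pool.Agent.H55.Suit.not_sep h1,
    Pool.Agent.H55.Suit.not_Gδ h1, Pool.Agent.H55.Suit.G_no_suitable h1 h3⟩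

end Pool.Agent.Results.MP_41e59e_gt.NoSuitable
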